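import Pool.Agent.H16.TK.Stmt2

/-! Replacement stays in the class. -/

set_option autoImplicit false

open Set

namespace Pool.Agent.TK

theorem pf_MEM {C : Type} {c0 : C} (hCOMP : COMP C c0) (hRPF : RPF C c0) : MEM C c0 := by
  intro X b hX hCl M hM a D R y hRD hbf
  obtain ⟨hV, hE, hL, -, -, hC, hFI⟩ := hRPF M a D R y hRD
  refine hCl M hM _ ?_
  refine hCOMP M (repl c0 M a D R y) y a D b hRD.val hV hRD.disj hRD.disjA
    (fun i hi => (hRD.cpM i hi).nb hRD.val) (fun i hi => (hC i hi).nb hV)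
    (fun u v hu hv => (hE u v hu hv).symm) (fun l hl => (hL l hl).symm) ?_ univ
    (fun i _ => Or.inl (subset_univ _)) [] (by simp)
  intro i hi
  have h1 : FB b M (a i) (D i) (R i) (a i) (D i) := by
    refine ⟨rfl, ?_⟩
    rw [← dg_eq_zip]
    exact hbf i hi
  have h2 := h1.trans ((hFI i hi).symm.fb b)
  rw [dg_eq_zip]
  exact h2.2

end Pool.Agent.TK
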